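import Mathlib
import Pool.Agent.Run7.h175.CT

set_option autoImplicit false

/-!
# MP_491344_nt: in polynomial rings of characteristic two no threshold at or below `√N` forces
# unbounded representations

Let `K` be a finite field of characteristic two with `q` elements. In `K[X]` the size of a polynomial
is its degree: the polynomials of degree less than `n` take the place of the numbers up to `N`, with
`N = q ^ n`. The counterpart of `1_A * 1_A (n)` is the number of the ordered pairs `(a, b)` of
elements of `A` with `a + b = f` and `deg a ≤ deg f`, `deg b ≤ deg f` (summands of a natural number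
are at most this number, whereas a sum of two polynomials can be much smaller than its terms).
Accordingly `g` forces unbounded representations in `K[X]` if the representation function is
unbounded for every `A` with `|A_n| ≫ √(q ^ n) / g n`, where `A_n` is the set of the elements of `A`
of degree less than `n`.

1. There is one set `A` all whose representation numbers are between `1` and `C`, and it has
   `√(q ^ n)` elements of degree less than `n`, up to a bounded factor, for every `n`.
2. Hence no `g` with a positive lower bound forces unbounded representations; in particular no `g`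
   which tends to infinity, and not even a constant.
3. If `g` tends to zero, then `g` forces unbounded representations.

So in this model Q1 has a negative answer, and for monotone `g` the thresholds are determined
completely (which `g` force unbounded representations is a question of Erdős for `ℕ`): these are the
`g` which tend to zero. The set `A` of item 1 was constructed by helper129 for the Erdős–Turán
conjecture (MP_12a1af_nt.CharTwoPolynomials).
-/

open Polynomial Filter Topology

namespace Pool.Agent.Results.MP_491344_nt.CharTwoThresholds

/-- The ordered pairs `(a, b)` of elements of `A` with `a + b = f` whose degrees are at most the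
degree of `f`. -/
def reps {K : Type*} [Field K] (A : Set K[X]) (f : K[X]) : Set (K[X] × K[X]) :=
  {z | z.1 ∈ A ∧ z.2 ∈ A ∧ z.1 + z.2 = f ∧ z.1.degree ≤ f.degree ∧ z.2.degree ≤ f.degree}

/-- The number of elements of `A` of degree less than `n` (zero has degree `-∞`). -/
noncomputable def cnt {K : Type*} [Field K] (A : Set K[X]) (n : ℕ) : ℕ :=
  {a : K[X] | a ∈ A ∧ a.degree < n}.ncard

/-- `|A_n| ≫ √(q ^ n) / g n`, where `A_n` is the set of the elements of degree less than `n`. -/
def Dense {K : Type*} [Field K] (g : ℕ → ℝ) (A : Set K[X]) : Prop :=
  ∃ C : ℝ, 0 < C ∧ ∀ᶠ n : ℕ in atTop, √((Nat.card K : ℝ) ^ n) / g n ≤ C * cnt A n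

/-- `g` forces unbounded representations in `K[X]`. -/
def Forces (K : Type*) [Field K] (g : ℕ → ℝ) : Prop :=
  ∀ A : Set K[X], Dense g A → ∀ k : ℕ, ∃ f : K[X], k < (reps A f).encard

theorem result (K : Type*) [Field K] [Finite K] [CharP K 2] :
    -- 1. a set with positive bounded representation numbers
    (∃ (A : Set K[X]) (C : ℕ), (∀ f : K[X], 1 ≤ (reps A f).encard ∧ (reps A f).encard ≤ C) ∧
      ∀ n : ℕ, Nat.card K ^ n ≤ cnt A n ^ 2 ∧ cnt A n ^ 2 ≤ C * Nat.card K ^ n) ∧
    -- 2. thresholds with a positive lower bound
    (∀ g : ℕ → ℝ, (∃ c > 0, ∀ᶠ n in atTop, c ≤ g n) → ¬ Forces K g) ∧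
    -- 3. thresholds which tend to zero
    (∀ g : ℕ → ℝ, (∀ᶠ n in atTop, 0 < g n) → Tendsto g atTop (𝓝 0) → Forces K g) := by
  obtain ⟨A, C, hA⟩ := Pool.Agent.Run7.h129.FF.main K
  refine ⟨⟨A, max C ((1 + 3 * C * Nat.card K) ^ 2), fun f => ⟨(hA f).1, ?_⟩, fun n => ⟨?_, ?_⟩⟩,
    ?_, ?_⟩
  · refine (hA f).2.trans ?_
    exact_mod_cast le_max_left _ _
  · exact Pool.Agent.Run7.h175.CT.lower A (fun f => (hA f).1) n
  · exact (Pool.Agent.Run7.h175.CT.order A C hA n).trans
      (Nat.mul_le_mul_right _ (le_max_right _ _))
  · intro g hg hforce
    obtain ⟨f, hf⟩ := hforce A (Pool.Agent.Run7.h175.CT.not_forces A C hA g hg) C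
    exact absurd (hA f).2 (not_le.mpr hf)
  · intro g hg0 hg A hD k
    exact Pool.Agent.Run7.h175.CT.forces g hg0 hg A hD k

end Pool.Agent.Results.MP_491344_nt.CharTwoThresholds
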