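import Pool.Agent.Run7.h326.PT2

/-!
# MP_491344_nt: density thresholds and random perturbations

`rep A n` is the number of ordered pairs of elements of `A` with sum `n`, `count A N` is
`|A ∩ [1, N]|`, `elt A i` is the `i`-th element of `A` and `moved A z = {elt A i + z i}`. Let `g` be
nondecreasing, and let `A` be ANY infinite set with `|A ∩ [1, N]| ≥ c √N / g(N)` for infinitely
many `N`. The elements of `A` are moved to the right by independent random amounts `Z_i`.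

1. Let `k ≥ 1`, `g(N) ≤ N ^ (1 / 12)` for large `N`, and let
   `w i ≥ 1728 (16 g(i³)² / c² + 3) k²` and `P(Z_i = z) ≥ i ^ (-1 / (8 k))` for all `z ≤ w i`, for
   all large `i`. Then almost surely `2 k` is a lower bound for `r(n)` for infinitely many `n`, where
   `r` is the representation function of the perturbed set.
2. Let `g(N) = N ^ o(1)`, `w(i) / g(i³)² → ∞` and `P(Z_i = z) ≥ i ^ (-o(1))` for `z ≤ w i`. Then `r` is
   almost surely unbounded. So `g` forces unbounded representations after random perturbations of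
   size slightly more than `g²`.
3. The condition of 2 holds for `Z_i` uniformly distributed on `{0, ..., w i}`, if
   `w i = i ^ o(1)`.
4. Polynomial thresholds: let `|A ∩ [1, N]| ≥ c N ^ (1 / 2 - δ)` for infinitely many `N` and
   `48 k δ < 1`. If `Z_i` is uniformly distributed on `{0, ..., ⌊i ^ (1 / (8 k))⌋ - 1}`, then almost
   surely `r(n) ≥ 2 k` for infinitely many `n`.

For bounded `g` (that is, `a_n ≤ C n²`) parts 1 and 2 are the starting result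
`MP_12a1af_nt.RandomPerturbations`, whose combinatorial lemma is applied here on every scale with
another constant. Bounded perturbations change nothing (`r` is bounded if `r_A` is bounded). The size
`g²` is the natural one: a window of this length contains a bounded number of sums of two elements
of `A` on average.
-/

set_option autoImplicit false

open Filter MeasureTheory ProbabilityTheory

namespace Pool.Agent.Results.MP_491344_nt.PerturbedThresholds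

/-- `r_A(n)`: the number of ordered pairs of elements of `A` with sum `n` -/
noncomputable def rep (A : Set ℕ) (n : ℕ) : ℕ :=
  {p : ℕ × ℕ | p.1 ∈ A ∧ p.2 ∈ A ∧ p.1 + p.2 = n}.ncard

/-- `|A ∩ [1, N]|` -/
noncomputable def count (A : Set ℕ) (N : ℕ) : ℝ := ((A ∩ Set.Icc 1 N).ncard : ℝ)

/-- the `i`-th element of the infinite set `A`, counting from `i = 0` -/
noncomputable def elt (A : Set ℕ) (i : ℕ) : ℕ := Nat.nth (fun a => a ∈ A) i

/-- the perturbed set: the `i`-th element of `A` is replaced by itself plus `z i` -/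
def moved (A : Set ℕ) (z : ℕ → ℕ) : Set ℕ := {x | ∃ i : ℕ, x = elt A i + z i}

/-- `|A ∩ [1, N]| ≥ c √N / g(N)` for infinitely many `N` -/
def DenseOften (g : ℕ → ℝ) (c : ℝ) (A : Set ℕ) : Prop :=
  ∃ᶠ N : ℕ in atTop, c * Real.sqrt N ≤ g N * count A N

/-- `P(Z_i = z) ≥ i ^ (-o(1))` for all `z ≤ w i` -/
def Spread {Ω : Type} [MeasurableSpace Ω] (μ : Measure Ω) (Z : ℕ → Ω → ℕ) (w : ℕ → ℕ) : Prop :=
  ∀ ε : ℝ, 0 < ε → ∀ᶠ i : ℕ in atTop, ∀ z ≤ w i, (i : ℝ) ^ (-ε) ≤ μ.real {ω | Z i ω = z}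

/-- `Z_i` is uniformly distributed on `{0, ..., w i}` -/
def Uniform {Ω : Type} [MeasurableSpace Ω] (μ : Measure Ω) (Z : ℕ → Ω → ℕ) (w : ℕ → ℕ) : Prop :=
  ∀ i, ∀ z ≤ w i, μ.real {ω | Z i ω = z} = 1 / ((w i : ℝ) + 1)

theorem moved_eq (A : Set ℕ) (z : ℕ → ℕ) :
    moved A z = Set.range fun i => Nat.nth (fun a => a ∈ A) i + z i := by
  ext x
  constructor
  · rintro ⟨i, rfl⟩
    exact ⟨i, rfl⟩
  · rintro ⟨i, rfl⟩
    exact ⟨i, rfl⟩

section

variable {A : Set ℕ} (hA : A.Infinite) {g : ℕ → ℝ} (hg : Monotone g)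
  {c : ℝ} (hc : 0 < c) (hd : DenseOften g c A) {Ω : Type} [MeasurableSpace Ω] {μ : Measure Ω}
  [IsProbabilityMeasure μ] {Z : ℕ → Ω → ℕ} (hZ : ∀ i, Measurable (Z i)) (hind : iIndepFun Z μ)

include hA hg hc hd hZ hind

theorem part_one (k : ℕ) (hk : 1 ≤ k) (hg12 : ∀ᶠ N : ℕ in atTop, g N ≤ (N : ℝ) ^ (1 / 12 : ℝ))
    (w : ℕ → ℕ)
    (hw : ∀ᶠ i : ℕ in atTop, 1728 * (16 * g (i ^ 3) ^ 2 / c ^ 2 + 3) * (k : ℝ) ^ 2 ≤ w i)
    (hpr : ∀ᶠ i : ℕ in atTop, ∀ z ≤ w i,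
      (i : ℝ) ^ (-(1 / (8 * k) : ℝ)) ≤ μ.real {ω | Z i ω = z}) :
    ∀ᵐ ω ∂μ, ∀ m : ℕ, ∃ n ≥ m, 2 * k ≤ rep (moved A fun i => Z i ω) n := by
  have h := Run7.h326.PT.perturbed_local Z hZ hind _ (Nat.nth_strictMono hA) k hk
    (Run7.h326.PT.scale hA hg hg12 hc hd k hk w hw Z hpr)
  filter_upwards [h] with ω hω m
  rw [moved_eq]
  exact hω m

theorem part_two (hg0 : ∀ᶠ N : ℕ in atTop, 0 < g N)
    (hg1 : ∀ η : ℝ, 0 < η → ∀ᶠ N : ℕ in atTop, g N ≤ (N : ℝ) ^ η) (w : ℕ → ℕ)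
    (hw : Tendsto (fun i : ℕ => (w i : ℝ) / g (i ^ 3) ^ 2) atTop atTop) (hs : Spread μ Z w) :
    ∀ᵐ ω ∂μ, ∀ K : ℕ, ∃ n, K < rep (moved A fun i => Z i ω) n := by
  have main : ∀ K : ℕ, ∀ᵐ ω ∂μ, ∀ m : ℕ, ∃ n ≥ m,
      2 * (K + 1) ≤ rep (moved A fun i => Z i ω) n := by
    intro K
    obtain ⟨N₀, hN₀⟩ := eventually_atTop.1 hg0
    have hgN : 0 < g N₀ := hN₀ N₀ le_rfl
    refine part_one hA hg hc hd hZ hind (K + 1) (by omega) (hg1 _ (by norm_num)) w ?_ ?_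
    · set B : ℝ := 1728 * (16 / c ^ 2 + 3 / g N₀ ^ 2) * ((K + 1 : ℕ) : ℝ) ^ 2 with hB
      filter_upwards [hw.eventually_ge_atTop B, eventually_ge_atTop N₀, eventually_ge_atTop 1]
        with i h1 h2 h3
      have h4 : g N₀ ≤ g (i ^ 3) := hg (h2.trans (Nat.le_self_pow (by norm_num) i))
      have h5 : 0 < g (i ^ 3) := lt_of_lt_of_le hgN h4
      rw [le_div_iff₀ (by positivity)] at h1
      refine le_trans ?_ h1
      have h6 : (3 : ℝ) ≤ 3 / g N₀ ^ 2 * g (i ^ 3) ^ 2 := by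
        rw [div_mul_eq_mul_div, le_div_iff₀ (by positivity)]
        gcongr
      have h7 : B * g (i ^ 3) ^ 2 = 1728 * (16 * g (i ^ 3) ^ 2 / c ^ 2 +
          3 / g N₀ ^ 2 * g (i ^ 3) ^ 2) * ((K + 1 : ℕ) : ℝ) ^ 2 := by
        rw [hB]
        ring
      rw [h7]
      gcongr
    · exact hs _ (by positivity)
  filter_upwards [ae_all_iff.2 main] with ω hω K
  obtain ⟨n, _, hn⟩ := hω K 0
  exact ⟨n, by omega⟩

end

theorem part_three {Ω : Type} [MeasurableSpace Ω] (μ : Measure Ω) (Z : ℕ → Ω → ℕ) (w : ℕ → ℕ)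
    (hw : ∀ η : ℝ, 0 < η → ∀ᶠ i : ℕ in atTop, (w i : ℝ) ≤ (i : ℝ) ^ η) (hu : Uniform μ Z w) :
    Spread μ Z w := by
  intro ε hε
  have hlim : Tendsto (fun i : ℕ => (i : ℝ) ^ (ε / 2)) atTop atTop :=
    (tendsto_rpow_atTop (by positivity)).comp tendsto_natCast_atTop_atTop
  filter_upwards [hw (ε / 2) (by positivity), hlim.eventually_ge_atTop 2, eventually_gt_atTop 0]
    with i h1 h2 h3 z hz
  rw [hu i z hz]
  have hi : (0 : ℝ) < i := by exact_mod_cast h3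
  rw [Real.rpow_neg hi.le, ← one_div]
  apply one_div_le_one_div_of_le (by positivity)
  have h4 : (i : ℝ) ^ ε = (i : ℝ) ^ (ε / 2) * (i : ℝ) ^ (ε / 2) := by
    rw [← Real.rpow_add hi]
    congr 1
    ring
  rw [h4]
  nlinarith

theorem part_four {A : Set ℕ} (hA : A.Infinite) {c δ : ℝ} (hc : 0 < c) (hδ : 0 ≤ δ)
    (hd : ∃ᶠ N : ℕ in atTop, c * (N : ℝ) ^ (1 / 2 - δ) ≤ count A N)
    {Ω : Type} [MeasurableSpace Ω] {μ : Measure Ω} [IsProbabilityMeasure μ] {Z : ℕ → Ω → ℕ}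
    (hZ : ∀ i, Measurable (Z i)) (hind : iIndepFun Z μ) (k : ℕ) (hk : 1 ≤ k)
    (hkδ : 48 * k * δ < 1) (hu : Uniform μ Z fun i => ⌊(i : ℝ) ^ (1 / (8 * k) : ℝ)⌋₊ - 1) :
    ∀ᵐ ω ∂μ, ∀ m : ℕ, ∃ n ≥ m, 2 * k ≤ rep (moved A fun i => Z i ω) n := by
  have hk1 : (1 : ℝ) ≤ k := by exact_mod_cast hk
  have hk0 : (0 : ℝ) < k := by linarith
  set θ : ℝ := 1 / (8 * k) with hθ
  have hθ0 : 0 < θ := by positivity
  have h6 : 6 * δ < θ := by
    rw [hθ, lt_div_iff₀ (by positivity)]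
    linarith
  have hδ12 : δ ≤ 1 / 12 := by
    nlinarith
  set g : ℕ → ℝ := fun N => if N = 0 then 0 else (N : ℝ) ^ δ with hg
  have hgm : Monotone g := by
    intro a b hab
    simp only [hg]
    by_cases ha : a = 0
    · rw [if_pos ha]
      split_ifs
      · exact le_rfl
      · positivity
    · rw [if_neg ha, if_neg (by omega)]
      exact Real.rpow_le_rpow (Nat.cast_nonneg _) (by exact_mod_cast hab) hδ
  have hpos : ∀ N : ℕ, 0 < N → g N = (N : ℝ) ^ δ := fun N hN => by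
    simp only [hg]
    rw [if_neg (by omega)]
  have hdo : DenseOften g c A := by
    refine (hd.and_eventually (eventually_gt_atTop 0)).mono fun N hN => ?_
    obtain ⟨h1, h2⟩ := hN
    have hN0 : (0 : ℝ) < N := by exact_mod_cast h2
    rw [hpos N h2]
    have h3 : Real.sqrt N = (N : ℝ) ^ (1 / 2 - δ) * (N : ℝ) ^ δ := by
      rw [Real.sqrt_eq_rpow, ← Real.rpow_add hN0]
      congr 1
      ring
    rw [h3]
    calc c * ((N : ℝ) ^ (1 / 2 - δ) * (N : ℝ) ^ δ) =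
          (N : ℝ) ^ δ * (c * (N : ℝ) ^ (1 / 2 - δ)) := by ring
      _ ≤ _ := mul_le_mul_of_nonneg_left h1 (by positivity)
  have hfl : ∀ i : ℕ, 1 ≤ i → 1 ≤ ⌊(i : ℝ) ^ θ⌋₊ := by
    intro i hi
    apply Nat.le_floor
    have : (1 : ℝ) ≤ i := by exact_mod_cast hi
    simpa using Real.one_le_rpow this hθ0.le
  refine part_one hA hgm hc hdo hZ hind k hk ?_ (fun i => ⌊(i : ℝ) ^ θ⌋₊ - 1) ?_ ?_
  · filter_upwards [eventually_gt_atTop 0] with N hN
    rw [hpos N hN]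
    exact Real.rpow_le_rpow_of_exponent_le (by exact_mod_cast hN) hδ12
  · -- the size of the windows
    set B : ℝ := 1728 * (16 / c ^ 2 + 3) * (k : ℝ) ^ 2 + 2 with hB
    have hlim : Tendsto (fun i : ℕ => (i : ℝ) ^ (θ - 6 * δ)) atTop atTop :=
      (tendsto_rpow_atTop (by linarith)).comp tendsto_natCast_atTop_atTop
    filter_upwards [hlim.eventually_ge_atTop B, eventually_gt_atTop 0] with i h1 h2
    have hi : (0 : ℝ) < i := by exact_mod_cast h2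
    have hi1 : (1 : ℝ) ≤ i := by exact_mod_cast h2
    have h3 : g (i ^ 3) ^ 2 = (i : ℝ) ^ (6 * δ) := by
      rw [hpos _ (by positivity)]
      push_cast
      rw [← Real.rpow_natCast, ← Real.rpow_natCast, ← Real.rpow_mul hi.le, ← Real.rpow_mul hi.le]
      congr 1
      push_cast
      ring
    have h4 : (1 : ℝ) ≤ (i : ℝ) ^ (6 * δ) := Real.one_le_rpow hi1 (by positivity)
    have h5 : B * (i : ℝ) ^ (6 * δ) ≤ (i : ℝ) ^ θ := by
      calc B * (i : ℝ) ^ (6 * δ) ≤ (i : ℝ) ^ (θ - 6 * δ) * (i : ℝ) ^ (6 * δ) := by gcongr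
        _ = (i : ℝ) ^ θ := by
          rw [← Real.rpow_add hi]
          congr 1
          ring
    have h7 := Nat.lt_floor_add_one ((i : ℝ) ^ θ)
    have h8 := hfl i h2
    rw [h3]
    push_cast [Nat.cast_sub h8]
    have h9 : 1728 * (16 * (i : ℝ) ^ (6 * δ) / c ^ 2 + 3) * (k : ℝ) ^ 2 + 2 ≤
        B * (i : ℝ) ^ (6 * δ) := by
      have e1 : B * (i : ℝ) ^ (6 * δ) = 1728 * (16 * (i : ℝ) ^ (6 * δ) / c ^ 2 +
          3 * (i : ℝ) ^ (6 * δ)) * (k : ℝ) ^ 2 + 2 * (i : ℝ) ^ (6 * δ) := by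
        rw [hB]
        ring
      rw [e1]
      have e2 : (3 : ℝ) ≤ 3 * (i : ℝ) ^ (6 * δ) := by linarith
      gcongr
      linarith
    linarith
  · filter_upwards [eventually_gt_atTop 0] with i h2 z hz
    have hi : (0 : ℝ) < i := by exact_mod_cast h2
    rw [hu i z hz]
    have h8 := hfl i h2
    have h9 : (((⌊(i : ℝ) ^ θ⌋₊ - 1 : ℕ) : ℝ) + 1) = (⌊(i : ℝ) ^ θ⌋₊ : ℝ) := by
      push_cast [Nat.cast_sub h8]
      ring
    rw [h9, Real.rpow_neg hi.le, ← one_div]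
    apply one_div_le_one_div_of_le
    · have : (1 : ℝ) ≤ (⌊(i : ℝ) ^ θ⌋₊ : ℝ) := by exact_mod_cast h8
      linarith
    · exact Nat.floor_le (by positivity)

/-- **Thresholds and random perturbations.** -/
theorem result :
    -- 1. a fixed number of representations
    (∀ (A : Set ℕ) (g : ℕ → ℝ) (c : ℝ), A.Infinite → Monotone g → 0 < c → DenseOften g c A →
      (∀ᶠ N : ℕ in atTop, g N ≤ (N : ℝ) ^ (1 / 12 : ℝ)) →
      ∀ (Ω : Type) [MeasurableSpace Ω] (μ : Measure Ω) [IsProbabilityMeasure μ] (Z : ℕ → Ω → ℕ),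
        (∀ i, Measurable (Z i)) → iIndepFun Z μ → ∀ k : ℕ, 1 ≤ k → ∀ w : ℕ → ℕ,
        (∀ᶠ i : ℕ in atTop, 1728 * (16 * g (i ^ 3) ^ 2 / c ^ 2 + 3) * (k : ℝ) ^ 2 ≤ w i) →
        (∀ᶠ i : ℕ in atTop, ∀ z ≤ w i,
          (i : ℝ) ^ (-(1 / (8 * k) : ℝ)) ≤ μ.real {ω | Z i ω = z}) →
        ∀ᵐ ω ∂μ, ∀ m : ℕ, ∃ n ≥ m, 2 * k ≤ rep (moved A fun i => Z i ω) n) ∧
    -- 2. unbounded representation functions
    (∀ (A : Set ℕ) (g : ℕ → ℝ) (c : ℝ), A.Infinite → Monotone g → 0 < c → DenseOften g c A →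
      (∀ᶠ N : ℕ in atTop, 0 < g N) →
      (∀ η : ℝ, 0 < η → ∀ᶠ N : ℕ in atTop, g N ≤ (N : ℝ) ^ η) →
      ∀ (Ω : Type) [MeasurableSpace Ω] (μ : Measure Ω) [IsProbabilityMeasure μ] (Z : ℕ → Ω → ℕ),
        (∀ i, Measurable (Z i)) → iIndepFun Z μ → ∀ w : ℕ → ℕ,
        Tendsto (fun i : ℕ => (w i : ℝ) / g (i ^ 3) ^ 2) atTop atTop → Spread μ Z w →
        ∀ᵐ ω ∂μ, ∀ K : ℕ, ∃ n, K < rep (moved A fun i => Z i ω) n) ∧
    -- 3. uniform distributions are spread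
    (∀ (Ω : Type) [MeasurableSpace Ω] (μ : Measure Ω) (Z : ℕ → Ω → ℕ) (w : ℕ → ℕ),
      (∀ η : ℝ, 0 < η → ∀ᶠ i : ℕ in atTop, (w i : ℝ) ≤ (i : ℝ) ^ η) → Uniform μ Z w →
      Spread μ Z w) ∧
    -- 4. polynomial thresholds
    (∀ (A : Set ℕ) (c δ : ℝ), A.Infinite → 0 < c → 0 ≤ δ →
      (∃ᶠ N : ℕ in atTop, c * (N : ℝ) ^ (1 / 2 - δ) ≤ count A N) →
      ∀ (Ω : Type) [MeasurableSpace Ω] (μ : Measure Ω) [IsProbabilityMeasure μ] (Z : ℕ → Ω → ℕ),
        (∀ i, Measurable (Z i)) → iIndepFun Z μ → ∀ k : ℕ, 1 ≤ k → 48 * k * δ < 1 →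
        Uniform μ Z (fun i => ⌊(i : ℝ) ^ (1 / (8 * k) : ℝ)⌋₊ - 1) →
        ∀ᵐ ω ∂μ, ∀ m : ℕ, ∃ n ≥ m, 2 * k ≤ rep (moved A fun i => Z i ω) n) := by
  refine ⟨?_, ?_, ?_, ?_⟩
  · intro A g c hA hg hc hd hg12 Ω _ μ _ Z hZ hind k hk w hw hpr
    exact part_one hA hg hc hd hZ hind k hk hg12 w hw hpr
  · intro A g c hA hg hc hd hg0 hg1 Ω _ μ _ Z hZ hind w hw hs
    exact part_two hA hg hc hd hZ hind hg0 hg1 w hw hs
  · intro Ω _ μ Z w hw hu
    exact part_three μ Z w hw hu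
  · intro A c δ hA hc hδ hd Ω _ μ _ Z hZ hind k hk hkδ hu
    exact part_four hA hc hδ hd hZ hind k hk hkδ hu

end Pool.Agent.Results.MP_491344_nt.PerturbedThresholds
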