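import Mathlib
import Pool.Agent.Run7.h175.ST

set_option autoImplicit false

/-!
# MP_491344_nt: every threshold `N ^ o(1)` forces unbounded representations in sets which contain
# long polynomial runs

`rep A n` is the number `1_A * 1_A (n)` of ordered pairs of elements of `A` with sum `n`, `Dense g A`
is the condition `|A ∩ [1, N]| ≫ √N / g(N)`, and `ForcesIn 𝒞 g` says that every `A` in the class `𝒞`
with `Dense g A` has unbounded representation function (so Q1 asks for a `g → ∞` with
`ForcesIn (fun _ => True) g`).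

1. Let `g(N) > 0` and `g(N) ≤ N ^ o(1)`. Then `g` forces unbounded representations in the class of all
   sets `A` which, for some `D`, `G`, for every `ε > 0` and for arbitrarily large `x`, contain below
   `x`, up to errors at most `G`, the values of an integer-valued polynomial of degree at most `D` at
   `|A ∩ [1, x]| ^ (1 - ε)` consecutive integers.
2. In particular, for the class of all ranges of increasing sequences which for some `D`, `G` are, for
   every `ε > 0` and for infinitely many `n`, integral splines of degree at most `D` with at most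
   `n ^ ε` pieces and errors at most `G` on `[0, n)`, and for the class of all ranges of increasing
   sequences whose `d`-th difference (some `d ≥ 1`) vanishes, for every `ε > 0` and for infinitely
   many `n`, on `[0, n)` with at most `n ^ ε` exceptions.
3. Let `0 < g(N) ≤ exp (√(log N) / 40)`. If the range `A` of an increasing sequence satisfies
   `|A ∩ [1, N]| ≫ √N / g(N)` and the sequence is, for infinitely many `n`, an integral spline of
   degree at most `D` with at most `F n` pieces and errors at most `F n` on `[0, n)`, where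
   `F x = exp (√(log x) / 10)`, then `1_A * 1_A (s) ≥ F s` for infinitely many `s`.

The method (many lattice points on short arcs of circles) and the bounds for runs are those of
helper129, see MP_12a1af_nt.QuadraticRuns; there the sets have `≫ √N` elements in items 1 and 2.
-/

open Finset Filter Topology Polynomial

namespace Pool.Agent.Results.MP_491344_nt.SplineThresholds

/-- `r_A(n)`: the number of ordered pairs of elements of `A` with sum `n` -/
noncomputable def rep (A : Set ℕ) (n : ℕ) : ℕ :=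
  {p : ℕ × ℕ | p.1 ∈ A ∧ p.2 ∈ A ∧ p.1 + p.2 = n}.ncard

/-- `|A ∩ [1, N]| ≫ √N / g(N)` -/
def Dense (g : ℕ → ℝ) (A : Set ℕ) : Prop :=
  ∃ C : ℝ, 0 < C ∧ ∀ᶠ N : ℕ in atTop,
    Real.sqrt (N : ℝ) / g N ≤ C * ((A ∩ Set.Icc 1 N).ncard : ℝ)

/-- `g` forces unbounded representations inside the class `𝒞` -/
def ForcesIn (𝒞 : Set ℕ → Prop) (g : ℕ → ℝ) : Prop :=
  ∀ A : Set ℕ, 𝒞 A → Dense g A → ∀ K : ℕ, ∃ n, K < rep A n

/-- For every `ε > 0` and for arbitrarily large `x` the set `A` contains a run below `x` of at least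
`|A ∩ [1, x]| ^ (1 - ε)` elements: distinct elements `s t` which are within distance `G` of the
values `P(t)` at `t = 0, ..., ℓ - 1` of a polynomial `P` of degree at most `D`, which are integers. -/
def LongRuns (A : Set ℕ) : Prop :=
  ∃ (D : ℕ) (G : ℝ), ∀ ε : ℝ, 0 < ε → ∃ᶠ x : ℕ in atTop, ∃ (P : ℝ[X]) (ℓ : ℕ) (s : ℕ → ℕ),
    P.natDegree ≤ D ∧ ((A ∩ Set.Icc 1 x).ncard : ℝ) ^ (1 - ε) ≤ ℓ ∧ Set.InjOn s (Set.Iio ℓ) ∧
    ∀ t < ℓ, s t ∈ A ∧ s t ≤ x ∧ (∃ z : ℤ, P.eval (t : ℝ) = z) ∧
      |(s t : ℝ) - P.eval (t : ℝ)| ≤ G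

/-- The terms `a k`, `k < n`, are up to an error `G` given by an integral spline of degree at most
`D` with at most `p` pieces: there are `q ≤ p` intervals `[c i, c (i + 1))` which make up `[0, n)`,
and on each of them a polynomial of degree at most `D` with integer values which are within distance
`G` of the numbers `a k`. -/
def Spline (a : ℕ → ℕ) (D n : ℕ) (p G : ℝ) : Prop :=
  ∃ (q : ℕ) (c : ℕ → ℕ) (P : ℕ → ℝ[X]), (q : ℝ) ≤ p ∧ Monotone c ∧ c 0 = 0 ∧ c q = n ∧
    ∀ i < q, (P i).natDegree ≤ D ∧ ∀ k, c i ≤ k → k < c (i + 1) →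
      (∃ z : ℤ, (P i).eval (k : ℝ) = z) ∧ |(a k : ℝ) - (P i).eval (k : ℝ)| ≤ G

/-- The `d`-th difference of the sequence `a` at `k`. -/
def diff (d : ℕ) (a : ℕ → ℕ) (k : ℕ) : ℤ :=
  ∑ i ∈ range (d + 1), (-1) ^ (d - i) * (d.choose i : ℤ) * (a (k + i) : ℤ)

/-- `F x = exp (√(log x) / 10)`. -/
noncomputable def F (x : ℝ) : ℝ := Real.exp (1 / 10 * √(Real.log x))

open Classical in
theorem result (g : ℕ → ℝ) (hg0 : ∀ᶠ N in atTop, 0 < g N) :
    -- 1. sets with long runs
    ((∀ ε : ℝ, 0 < ε → ∀ᶠ N : ℕ in atTop, g N ≤ (N : ℝ) ^ ε) → ForcesIn LongRuns g) ∧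
    -- 2. integral splines with few pieces, and sequences whose `d`-th difference mostly vanishes
    ((∀ ε : ℝ, 0 < ε → ∀ᶠ N : ℕ in atTop, g N ≤ (N : ℝ) ^ ε) →
      ForcesIn (fun A => ∃ a : ℕ → ℕ, StrictMono a ∧ A = Set.range a ∧
        ((∃ (D : ℕ) (G : ℝ), ∀ ε : ℝ, 0 < ε → ∃ᶠ n : ℕ in atTop, Spline a D n ((n : ℝ) ^ ε) G) ∨
          ∃ d ≥ 1, ∀ ε : ℝ, 0 < ε → ∃ᶠ n : ℕ in atTop,
            (((range n).filter (fun k => diff d a k ≠ 0)).card : ℝ) ≤ (n : ℝ) ^ ε)) g) ∧
    -- 3. more pieces and larger errors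
    ((∀ᶠ N : ℕ in atTop, g N ≤ Real.exp (√(Real.log N) / 40)) →
      ∀ a : ℕ → ℕ, StrictMono a → Dense g (Set.range a) → ∀ D : ℕ,
        (∃ᶠ n : ℕ in atTop, Spline a D n (F n) (F n)) →
        ∃ᶠ s : ℕ in atTop, F s ≤ rep (Set.range a) s) := by
  refine ⟨?_, ?_, ?_⟩
  · rintro hg A ⟨D, G, h⟩ hA K
    exact Pool.Agent.Run7.h175.ST.runs g hg0 hg A hA D G h K
  · rintro hg A ⟨a, ha, rfl, h | ⟨d, hd, h⟩⟩ hA K
    · obtain ⟨D, G, h⟩ := h
      exact Pool.Agent.Run7.h175.ST.runs g hg0 hg _ hA D G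
        (Pool.Agent.Run7.h175.ST.spline_runs a ha D G h) K
    · exact Pool.Agent.Run7.h175.ST.runs g hg0 hg _ hA d 0
        (Pool.Agent.Run7.h175.ST.spline_runs a ha d 0
          (Pool.Agent.Run7.h175.ST.diff_spline a d hd h)) K
  · intro hg a ha hA D h
    exact Pool.Agent.Run7.h129.Arc.spline_F a ha D
      ((h.and_eventually (Pool.Agent.Run7.h175.ST.growth g hg0 hg a ha hA)).mono
        fun n hn => ⟨hn.2, hn.1⟩)

end Pool.Agent.Results.MP_491344_nt.SplineThresholds
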