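import Pool.Agent.Run7.h326.TR6

/-!
# MP_491344_nt: density thresholds and recurrences of the representation function

`rep A n` is the number `r_A(n)` of ordered pairs of elements of `A` with sum `n`. There is no
assumption on the size of `A` in the first three parts.

1. Prediction. Let `g` be a real sequence with `|g_0| ≥ 1` and `∑ g_j ^ 2 ≤ V`, let `0 < y < 1` and
   `∑ r_A(n) ^ 2 y ^ n ≤ B (∑_{a ∈ A} y ^ a) ^ 2`; this is true with `B = K` if `r_A ≤ K`. Then
   `(∑_{a ∈ A} y ^ a) ^ 2 ≤ 4 (1 + V) ^ (4 B) ∑_n (∑_{j ≤ n} g_j r_A(n - j)) ^ 2 y ^ n`.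
   Note that `(∑_{a ∈ A} y ^ a) ^ 2 = ∑ r_A(n) y ^ n`: so no linear predictor with square summable
   weights predicts a bounded representation function with a small relative error in mean square.
2. For all `K`, `V` there is `c > 0` such that, if `A` is infinite and `r_A ≤ K`, every linear
   recurrence with integer coefficients `g_j`, not all zero, `∑ g_j ^ 2 ≤ V`, fails
   (`∑ g_j r_A(n + j) ≠ 0`) for at least `c |A ∩ [1, N]| ^ 2` numbers `n < N`, for arbitrarily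
   large `N`; `c` does not depend on the length of the recurrence. The order is best possible: at
   most `(|A ∩ [1, N]| + 1) ^ 2` numbers `n ≤ N` have `r_A(n) ≠ 0`.
3. If also `|A ∩ [1, 2 N]| ≤ C |A ∩ [1, N]|` for all large `N`, this holds for all large `N`, with
   `c` depending on `C`, too.
4. Hence every function `g` with `√N / g(N) → ∞` forces unbounded representations inside the class
   of the sets whose representation function satisfies such recurrences (of arbitrary length, with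
   bounded `∑ g_j ^ 2`) up to `ε |A ∩ [1, N]| ^ 2` exceptions, for every `ε > 0`.

Method: let `f(z) = ∑_{a ∈ A} z ^ a`, `|z| = √y` and `m = ∑_{a ∈ A} y ^ a`. By Jensen's formula
`P(z) = ∑ g_j z ^ j` is smaller than `(1 + V) ^ (-2 B)` only on a set `E` of angles of measure at
most `1 / (4 B)`. As the mean of `|f| ^ 4` is at most `B m ^ 2`, at most half of the mean of
`|f| ^ 2`, which is `m`, comes from `E`, so that the mean of `|f| ^ 4` outside of `E` is at least
`m ^ 2 / 4`.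
-/

set_option autoImplicit false

open Filter Finset Topology

namespace Pool.Agent.Results.MP_491344_nt.ThinRecurrences

/-- `r_A(n)`: the number of ordered pairs of elements of `A` with sum `n` -/
noncomputable def rep (A : Set ℕ) (n : ℕ) : ℕ :=
  {p : ℕ × ℕ | p.1 ∈ A ∧ p.2 ∈ A ∧ p.1 + p.2 = n}.ncard

/-- `|A ∩ [1, N]|` -/
noncomputable def count (A : Set ℕ) (N : ℕ) : ℝ := ((A ∩ Set.Icc 1 N).ncard : ℝ)

/-- the number of the `n < N` with `∑ g_j r_A(n + j) ≠ 0` -/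
noncomputable def fails (A : Set ℕ) (g : Polynomial ℤ) (N : ℕ) : ℝ :=
  ({n : ℕ | n < N ∧ ∑ j ∈ g.support, g.coeff j * (rep A (n + j) : ℤ) ≠ 0}.ncard : ℝ)

/-- `|A ∩ [1, 2 N]| ≤ C |A ∩ [1, N]|` for all large `N` -/
def Doubling (A : Set ℕ) (C : ℝ) : Prop := ∀ᶠ N : ℕ in atTop, count A (2 * N) ≤ C * count A N

/-- for some `V` and every `ε > 0`, some recurrence with integer coefficients, not all zero, and
`∑ g_j ^ 2 ≤ V` has at most `ε |A ∩ [1, N]| ^ 2` exceptions `n < N`, for all large `N` -/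
def Recurrent (A : Set ℕ) : Prop :=
  ∃ V : ℕ, ∀ ε : ℝ, 0 < ε → ∃ g : Polynomial ℤ, g ≠ 0 ∧ ∑ j ∈ g.support, g.coeff j ^ 2 ≤ (V : ℤ) ∧
    ∀ᶠ N : ℕ in atTop, fails A g N ≤ ε * count A N ^ 2

/-- the same for arbitrarily large `N` -/
def RecurrentAlong (A : Set ℕ) : Prop :=
  ∃ V : ℕ, ∀ ε : ℝ, 0 < ε → ∃ g : Polynomial ℤ, g ≠ 0 ∧ ∑ j ∈ g.support, g.coeff j ^ 2 ≤ (V : ℤ) ∧
    ∃ᶠ N : ℕ in atTop, fails A g N ≤ ε * count A N ^ 2

/-- `|A ∩ [1, N]| ≫ √N / g(N)` -/
def Dense (g : ℕ → ℝ) (A : Set ℕ) : Prop :=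
  ∃ C : ℝ, 0 < C ∧ ∀ᶠ N : ℕ in atTop, Real.sqrt N / g N ≤ C * count A N

/-- `g` forces unbounded representations inside the class `𝒞` -/
def ForcesIn (𝒞 : Set ℕ → Prop) (g : ℕ → ℝ) : Prop :=
  ∀ A : Set ℕ, 𝒞 A → Dense g A → ∀ K : ℕ, ∃ n, K < rep A n

open Run7.h326.TR (mass cnt lcnt)

theorem mass_sub (A : Set ℕ) (y : ℝ) : ∑' a : A, y ^ (a : ℕ) = mass A y :=
  tsum_subtype A (fun n : ℕ => y ^ n)

theorem count_eq (A : Set ℕ) (N : ℕ) : count A N ≤ cnt A N ∧ (cnt A N : ℝ) ≤ count A N + 1 := by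
  classical
  have h1 : A ∩ Set.Icc 1 N = (((range (N + 1)).filter (fun a => a ∈ A)).erase 0 : Finset ℕ) := by
    ext a
    simp only [Set.mem_inter_iff, Set.mem_Icc, coe_erase, coe_filter, mem_range, Set.mem_diff,
      Set.mem_ofPred_eq, Set.mem_singleton_iff]
    constructor
    · rintro ⟨h1, h2, h3⟩
      exact ⟨⟨by omega, h1⟩, by omega⟩
    · rintro ⟨⟨h1, h2⟩, h3⟩
      exact ⟨h2, by omega, by omega⟩
  have h2 : cnt A N = ((range (N + 1)).filter (fun a => a ∈ A)).card := by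
    unfold cnt
    congr!
  unfold count
  rw [h1, Set.ncard_coe_finset, h2]
  have h3 : (((range (N + 1)).filter (fun a => a ∈ A)).erase 0).card ≤
      ((range (N + 1)).filter (fun a => a ∈ A)).card := card_le_card (erase_subset _ _)
  have h4 := pred_card_le_card_erase (s := (range (N + 1)).filter (fun a => a ∈ A)) (a := 0)
  constructor
  · exact_mod_cast h3
  · have h5 : ((range (N + 1)).filter (fun a => a ∈ A)).card ≤
      (((range (N + 1)).filter (fun a => a ∈ A)).erase 0).card + 1 := by omega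
    exact_mod_cast h5

theorem count_nonneg (A : Set ℕ) (N : ℕ) : 0 ≤ count A N := Nat.cast_nonneg _

theorem cnt_large {A : Set ℕ} (hA : A.Infinite) (B : ℕ) : ∀ᶠ N : ℕ in atTop, (B : ℝ) ≤ cnt A N := by
  obtain ⟨n, hn⟩ := Run7.h326.TR.cnt_pos hA B
  filter_upwards [eventually_ge_atTop n] with N hN
  exact_mod_cast hn.trans (Run7.h326.TR.cnt_mono A hN)

theorem part_two (K V : ℕ) : ∃ c : ℝ, 0 < c ∧ ∀ A : Set ℕ, A.Infinite → (∀ n, rep A n ≤ K) →
    ∀ g : Polynomial ℤ, g ≠ 0 → ∑ j ∈ g.support, g.coeff j ^ 2 ≤ (V : ℤ) →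
    ∃ᶠ N : ℕ in atTop, c * (cnt A N : ℝ) ^ 2 ≤ fails A g N :=
  Run7.h326.TR.final_freq K V

theorem part_three (K V : ℕ) (C : ℝ) : ∃ c : ℝ, 0 < c ∧ ∀ A : Set ℕ, A.Infinite →
    (∀ n, rep A n ≤ K) → Doubling A C →
    ∀ g : Polynomial ℤ, g ≠ 0 → ∑ j ∈ g.support, g.coeff j ^ 2 ≤ (V : ℤ) →
    ∀ᶠ N : ℕ in atTop, c * (cnt A N : ℝ) ^ 2 ≤ fails A g N := by
  obtain ⟨c, hc, h⟩ := Run7.h326.TR.final_ev K V (max C 0 + 1)
  refine ⟨c, hc, fun A hA hK hd g hg hV => h A hA hK ?_ g hg hV⟩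
  filter_upwards [hd, cnt_large hA 1] with N h1 h2
  obtain ⟨h3, _⟩ := count_eq A N
  obtain ⟨_, h4⟩ := count_eq A (2 * N)
  have h5 : C * count A N ≤ max C 0 * cnt A N := by
    calc C * count A N ≤ max C 0 * count A N :=
          mul_le_mul_of_nonneg_right (le_max_left _ _) (count_nonneg A N)
      _ ≤ max C 0 * cnt A N := mul_le_mul_of_nonneg_left h3 (le_max_right _ _)
  have h6 : (1 : ℝ) ≤ cnt A N := by simpa using h2
  linarith

theorem infinite_of_dense {g : ℕ → ℝ} (hg : Tendsto (fun N : ℕ => Real.sqrt N / g N) atTop atTop)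
    {A : Set ℕ} (hA : Dense g A) : A.Infinite := by
  intro hfin
  obtain ⟨C, hC, h⟩ := hA
  obtain ⟨N, h1, h2⟩ := (h.and (hg.eventually_gt_atTop (C * A.ncard))).exists
  have h3 : count A N ≤ A.ncard := by
    unfold count
    exact_mod_cast Set.ncard_le_ncard Set.inter_subset_left hfin
  have h4 : C * count A N ≤ C * A.ncard := mul_le_mul_of_nonneg_left h3 hC.le
  linarith

/-- **Thresholds and recurrences.** -/
theorem result :
    -- 1. prediction
    (∀ (A : Set ℕ) (g : ℕ → ℝ) (B V y : ℝ), 1 ≤ |g 0| → (∀ n, ∑ j ∈ range n, g j ^ 2 ≤ V) →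
      0 < B → 0 < y → y < 1 →
      ∑' n, (rep A n : ℝ) ^ 2 * y ^ n ≤ B * (∑' a : A, y ^ (a : ℕ)) ^ 2 →
      (∑' a : A, y ^ (a : ℕ)) ^ 2 ≤ 4 * (1 + V) ^ (4 * B) *
        ∑' n, (∑ j ∈ range (n + 1), g j * (rep A (n - j) : ℝ)) ^ 2 * y ^ n) ∧
    (∀ (A : Set ℕ) (K : ℕ) (y : ℝ), (∀ n, rep A n ≤ K) → 0 < y → y < 1 →
      ∑' n, (rep A n : ℝ) ^ 2 * y ^ n ≤ K * (∑' a : A, y ^ (a : ℕ)) ^ 2) ∧
    -- 2. recurrences fail for arbitrarily large `N`
    (∀ K V : ℕ, ∃ c : ℝ, 0 < c ∧ ∀ A : Set ℕ, A.Infinite → (∀ n, rep A n ≤ K) →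
      ∀ g : Polynomial ℤ, g ≠ 0 → ∑ j ∈ g.support, g.coeff j ^ 2 ≤ (V : ℤ) →
      ∃ᶠ N : ℕ in atTop, c * count A N ^ 2 ≤ fails A g N) ∧
    -- 3. for all large `N`
    (∀ (K V : ℕ) (C : ℝ), ∃ c : ℝ, 0 < c ∧ ∀ A : Set ℕ, A.Infinite → (∀ n, rep A n ≤ K) →
      Doubling A C →
      ∀ g : Polynomial ℤ, g ≠ 0 → ∑ j ∈ g.support, g.coeff j ^ 2 ≤ (V : ℤ) →
      ∀ᶠ N : ℕ in atTop, c * count A N ^ 2 ≤ fails A g N) ∧
    -- 4. thresholds
    (∀ g : ℕ → ℝ, Tendsto (fun N : ℕ => Real.sqrt N / g N) atTop atTop →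
      ForcesIn (fun A => Recurrent A ∨ ((∃ C, Doubling A C) ∧ RecurrentAlong A)) g) := by
  have hsq : ∀ (A : Set ℕ) (N : ℕ) (c : ℝ), 0 < c → c * count A N ^ 2 ≤ c * (cnt A N : ℝ) ^ 2 := by
    intro A N c hc
    have h1 := (count_eq A N).1
    have h2 := count_nonneg A N
    gcongr
  refine ⟨?_, ?_, ?_, ?_, ?_⟩
  · intro A g B V y hg0 hV hB hy0 hy1 h
    have hV0 : 1 ≤ V := by
      have h1 := hV 1
      rw [sum_range_one] at h1
      have h2 : 1 ≤ g 0 ^ 2 := by
        rw [← sq_abs]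
        nlinarith
      linarith
    rw [mass_sub] at h ⊢
    have h1 := Run7.h326.TR.ineq_real A hg0 hV hB hy0 hy1 h
    have h2 : (1 + V) ^ (4 * B) = Real.exp (4 * B * Real.log (1 + V)) := by
      rw [Real.rpow_def_of_pos (by linarith), mul_comm]
    rw [h2]
    have h3 : Real.exp (4 * B * Real.log (1 + V)) * Real.exp (-(4 * B * Real.log (1 + V))) = 1 := by
      rw [← Real.exp_add]
      simp
    have h4 : 0 < Real.exp (4 * B * Real.log (1 + V)) := Real.exp_pos _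
    calc mass A y ^ 2 = 4 * Real.exp (4 * B * Real.log (1 + V)) *
          ((1 / 4) * Real.exp (-(4 * B * Real.log (1 + V))) * mass A y ^ 2) := by
          have e : 4 * Real.exp (4 * B * Real.log (1 + V)) *
            ((1 / 4) * Real.exp (-(4 * B * Real.log (1 + V))) * mass A y ^ 2) =
            (Real.exp (4 * B * Real.log (1 + V)) * Real.exp (-(4 * B * Real.log (1 + V)))) *
              mass A y ^ 2 := by ring
          rw [e, h3, one_mul]
      _ ≤ _ := mul_le_mul_of_nonneg_left h1 (by positivity)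
  · intro A K y hK hy0 hy1
    rw [mass_sub]
    exact Run7.h326.TR.energy_le A hK hy0.le hy1
  · intro K V
    obtain ⟨c, hc, h⟩ := part_two K V
    exact ⟨c, hc, fun A hA hK g hg hV => (h A hA hK g hg hV).mono fun N hN =>
      (hsq A N c hc).trans hN⟩
  · intro K V C
    obtain ⟨c, hc, h⟩ := part_three K V C
    exact ⟨c, hc, fun A hA hK hd g hg hV => (h A hA hK hd g hg hV).mono fun N hN =>
      (hsq A N c hc).trans hN⟩
  · intro g hg A hcl hd K
    by_contra hcon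
    push Not at hcon
    have hinf := infinite_of_dense hg hd
    have hbad : ∀ (c : ℝ) (N : ℕ) (G : Polynomial ℤ), 0 < c → 1 ≤ (cnt A N : ℝ) →
        c * (cnt A N : ℝ) ^ 2 ≤ fails A G N → fails A G N ≤ c / 2 * count A N ^ 2 → False := by
      intro c N G hc h1 h2 h3
      have h4 := hsq A N (c / 2) (by positivity)
      have h5 : 0 < c * (cnt A N : ℝ) ^ 2 := by positivity
      linarith
    rcases hcl with ⟨V, hV⟩ | ⟨⟨C, hC⟩, V, hV⟩
    · obtain ⟨c, hc, h⟩ := part_two K V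
      obtain ⟨G, hG, hGV, hGe⟩ := hV (c / 2) (by positivity)
      obtain ⟨N, h1, h2, h3⟩ := ((h A hinf hcon G hG hGV).and_eventually
        (hGe.and (cnt_large hinf 1))).exists
      exact hbad c N G hc (by simpa using h3) h1 h2
    · obtain ⟨c, hc, h⟩ := part_three K V C
      obtain ⟨G, hG, hGV, hGe⟩ := hV (c / 2) (by positivity)
      obtain ⟨N, h1, h2, h3⟩ := (hGe.and_eventually
        ((h A hinf hcon hC G hG hGV).and (cnt_large hinf 1))).exists
      exact hbad c N G hc (by simpa using h3) h2 h1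

end Pool.Agent.Results.MP_491344_nt.ThinRecurrences
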